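import Pool.Agent.V8H74.RK.Linear

/-!
# Hitting sets for oblivious algebraic branching programs which read every variable few times

An oblivious branching program of width `w` is a list of layers; every layer reads one variable `x_i` and has a
`w × w` matrix of univariate polynomials in `x_i`. Its reading word `τ` is the list of the variables read. For every
reading word `τ` there is an explicitly given set of points (all definitions are computable functions) which
contains a point where `f` does not vanish, for every nonzero `f` with individual degrees at most `e` which is computed
by a program with reading word `τ` and width `w`, over any field of characteristic zero. If `τ` reads every variable at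
most `k` times, the set has at most `exp (17600 Λ ^ 4 n ^ (1 - 1 / k) log (2 w (e + 1)))` points.

The variables are divided into blocks, about `n ^ (1 - 1 / k)` many, each with an order such that every cut of the order
is crossed by `τ` only polylogarithmically often. Such an order is found by recursion: if the places of `τ` are cut
into `M` chunks, and the chunks are coloured with two colours, the variables which only occur in chunks of the
first colour and those which only occur in chunks of the second colour are separated by a cut into at most `M`
segments; for a suitable colouring both parts have about a `2 ^ (-k)` part of the variables.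
Each block gets one seed, and the seed of a block of length `2 ^ (l + 1)` is transformed into the two seeds
`y ^ W` and `y ^ W + y ^ (W - 1)` of its halves.
-/

set_option autoImplicit false

namespace Pool.Agent.Results.MP_b2b50d_lc.ReadKPrograms

open MvPolynomial Pool.Agent.V8H74.RK

/-- The polynomial computed by the program `P` with the output coefficients `c`: the combination of the entries of
the product of the matrices of its layers. -/
noncomputable def value {K : Type} [Field K] {n w : ℕ} (P : Prog K n w) (c : Fin w × Fin w → K) :
    MvPolynomial (Fin n) K :=
  ∑ p, C (c p) * progMatrix P p.1 p.2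

/-- **Hitting sets for oblivious branching programs which read every variable few times.** -/
theorem result :
    (∀ (n k w e : ℕ) (τ : List (Fin n)), 2 ≤ k → k ≤ Nat.log 2 n + 1 → 1 ≤ w →
      -- the set `hittingSet τ k w e` hits all programs with reading word `τ`, width `w`, individual degrees `≤ e`
      (∀ (K : Type) [Field K] [CharZero K] (P : Prog K n w) (c : Fin w × Fin w → K), P.map Prod.fst = τ →
        (∀ i, (value P c).degreeOf i ≤ e) → value P c ≠ 0 →
        ∃ a ∈ hittingSet τ k w e, eval (fun i => (a i : K)) (value P c) ≠ 0) ∧
      -- its size
      Real.log ((hittingSet τ k w e).card : ℝ) ≤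
        ((Finset.univ.filter fun v => k < τ.count v).card : ℝ) * Real.log (e + 1) +
          17600 * ((Nat.log 2 n + 1 : ℕ) : ℝ) ^ 4 * (n : ℝ) ^ (1 - 1 / k : ℝ) * Real.log (2 * w * (e + 1)) ∧
      -- the size of the coordinates
      ∀ a ∈ hittingSet τ k w e, ∀ i,
        a i ≤ (2 * (n * e * seg n k w ^ lam n + e + 1)) ^ ((seg n k w + 1) ^ lam n)) ∧
    -- programs of linear length
    ∀ A : ℕ, ∀ᶠ n : ℕ in Filter.atTop, ∀ (w e : ℕ) (τ : List (Fin n)), 1 ≤ w →
      Real.log (2 * w * (e + 1)) ≤ Real.log n ^ A → ∃ k, 2 ≤ k ∧ k ≤ Nat.log 2 n + 1 ∧
        Real.log ((hittingSet τ k w e).card : ℝ) ≤
          (A + 6) * (Real.log (Real.log n) / Real.log n) * τ.length * Real.log (e + 1) + n / Real.log n := by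
  refine ⟨fun n k w e τ hk hkl hw => ⟨?_, log_card τ k w e hk hkl hw, fun a ha i => coord_le τ k w e hw a ha i⟩,
    fun A => linear_length A⟩
  intro K _ _ P c hP hdeg hne
  subst hP
  exact hitting P c k e hk hkl (value P c) rfl hdeg hne

end Pool.Agent.Results.MP_b2b50d_lc.ReadKPrograms
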