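import Pool.Agent.V8H74.SR.Line
import Pool.Agent.V8H74.SR.Final
import Pool.Agent.V8H74.SR.Bounds2

/-!
# Identity testing for sums of read-once oblivious programs in different orders

A sum of `c` read-once oblivious algebraic branching programs of width `w` in `n` variables with individual degrees
at most `d`. The `i`-th program reads the variables in the order `σ i`; the variable `v` is read with the matrix
`∑ j ≤ d, v ^ j A_{i,v,j}`. A good base point is found by local search, then only points which differ from it in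
few coordinates have to be tested.
-/

set_option autoImplicit false

namespace Pool.Agent.Results.MP_b2b50d_lc.SumsOfReadOncePrograms

open Pool.Agent.V8H74.SR

variable {K : Type} [Field K] {c n w d : ℕ}

/-- `λ = ⌊log₂ (w²)⌋`. -/
def lam (w : ℕ) : ℕ := Nat.log 2 (w ^ 2)

/-! ### The polynomial -/

/-- The matrix of polynomials with which the variable `v` is read. -/
noncomputable def readMat (A : Fin (d + 1) → Matrix (Fin w) (Fin w) K) (v : Fin n) :
    Matrix (Fin w) (Fin w) (MvPolynomial (Fin n) K) :=
  ∑ j : Fin (d + 1), (MvPolynomial.X v : MvPolynomial (Fin n) K) ^ (j : ℕ) • (A j).map MvPolynomial.C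

/-- The polynomial `∑ i, L_i · (∏ of the matrices in the order σ_i) · R_i`. -/
noncomputable def sumOfPrograms (A : Fin c → Fin n → Fin (d + 1) → Matrix (Fin w) (Fin w) K)
    (σ : Fin c → Equiv.Perm (Fin n)) (L R : Fin c → Fin w → K) : MvPolynomial (Fin n) K :=
  ∑ i, ∑ p, ∑ r, MvPolynomial.C (L i p) *
    (((List.finRange n).map (σ i)).map fun v => readMat (A i v) v).prod p r * MvPolynomial.C (R i r)

/-! ### The potential -/

/-- The point with the coordinates `x` in `U` and `g` elsewhere. -/
def modify (U : Finset (Fin n)) (x g : Fin n → K) : Fin n → K := fun v => if v ∈ U then x v else g v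

/-- The product of the matrices of a program, with values `z`, between the steps `a` and `b`. -/
def segmentVal (A : Fin n → Fin (d + 1) → Matrix (Fin w) (Fin w) K) (σ : Equiv.Perm (Fin n)) (a b : ℕ)
    (z : Fin n → K) : Matrix (Fin w) (Fin w) K :=
  (((((List.finRange n).map σ).take b).drop a).map fun v => ∑ j : Fin (d + 1), z v ^ (j : ℕ) • A v j).prod

/-- The rank of the vectors `(segmentVal at the point x on S ∪ α, g elsewhere)_{α ⊆ F}` for `S ∈ 𝒮`. -/
noncomputable def rankAt (A : Fin n → Fin (d + 1) → Matrix (Fin w) (Fin w) K) (σ : Equiv.Perm (Fin n))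
    (a b : ℕ) (F : Finset (Fin n)) (𝒮 : Finset (Finset (Fin n))) (x g : Fin n → K) : ℕ :=
  Module.finrank K (Submodule.span K ((fun (S : Finset (Fin n)) (α : {α : Finset (Fin n) // α ⊆ F}) =>
    segmentVal A σ a b (modify (S ∪ α.1) x g)) '' (𝒮 : Set (Finset (Fin n)))))

/-- The grid of the points with coordinates `0, ..., M` in `U` and `0` elsewhere. -/
def grid (M : ℕ) (U : Finset (Fin n)) : Finset (Fin n → ℕ) :=
  Fintype.piFinset fun v => if v ∈ U then Finset.range (M + 1) else {0}

/-- The largest rank for points `x` of the grid of `U ∪ F`. -/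
noncomputable def topRank (M : ℕ) (A : Fin n → Fin (d + 1) → Matrix (Fin w) (Fin w) K)
    (σ : Equiv.Perm (Fin n)) (a b : ℕ) (U F : Finset (Fin n)) (𝒮 : Finset (Finset (Fin n)))
    (g : Fin n → K) : ℕ :=
  (grid M (U ∪ F)).sup fun x => rankAt A σ a b F 𝒮 (fun v => (x v : K)) g

/-- The number `2 ^ λ w² d`, the largest coordinate of the points `x`. -/
def gridBound (w d : ℕ) : ℕ := 2 ^ lam w * w ^ 2 * d

/-- The conditions: a program, two steps `a`, `b`, a set `U` of `2 λ + 1` variables and a disjoint set `F` of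
at most `λ` variables. -/
def conditions (c n w : ℕ) : Finset (Fin c × Fin (n + 1) × Fin (n + 1) × Finset (Fin n) × Finset (Fin n)) :=
  Finset.univ.filter fun κ =>
    κ.2.2.2.1.card = 2 * lam w + 1 ∧ κ.2.2.2.2.card ≤ lam w ∧ Disjoint κ.2.2.2.1 κ.2.2.2.2

/-- The potential of an integer point: the sum over all conditions of the largest ranks for all subsets of `U` and
for all proper subsets of `U`. -/
noncomputable def potential (A : Fin c → Fin n → Fin (d + 1) → Matrix (Fin w) (Fin w) K)
    (σ : Fin c → Equiv.Perm (Fin n)) (z : Fin n → ℤ) : ℕ :=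
  ∑ κ ∈ conditions c n w,
    (topRank (gridBound w d) (A κ.1) (σ κ.1) κ.2.1 κ.2.2.1 κ.2.2.2.1 κ.2.2.2.2 κ.2.2.2.1.powerset
        (fun v => (z v : K)) +
      topRank (gridBound w d) (A κ.1) (σ κ.1) κ.2.1 κ.2.2.1 κ.2.2.2.1 κ.2.2.2.2 κ.2.2.2.1.ssubsets
        (fun v => (z v : K)))

/-- A bound of the potential. -/
def potentialBound (c n w : ℕ) : ℕ := 2 * (2 ^ lam w * w ^ 2) * (c * (n + 1) ^ (3 * lam w + 3))

/-! ### The local search -/

/-- The largest parameter on the lines. -/
def lineBound (c n w d : ℕ) : ℕ := (2 * lam w + 1) * ((potentialBound c n w + 2 ^ lam w * w ^ 2) * d)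

/-- The point `g + t (x - g)` on `D`, `g` elsewhere. -/
def linePoint (D : Finset (Fin n)) (x : Fin n → ℕ) (t : ℕ) (g : Fin n → ℤ) : Fin n → ℤ :=
  fun v => if v ∈ D then g v + t * ((x v : ℤ) - g v) else g v

/-- The candidates of a round: a set `D` of at most `2 λ + 1` variables, a point `x` of its grid, a number `t`. -/
def candidates (c n w d : ℕ) : Finset ((_ : Finset (Fin n)) × (Fin n → ℕ) × ℕ) :=
  (Finset.univ.filter fun D : Finset (Fin n) => D.card ≤ 2 * lam w + 1).sigma fun D =>
    grid (gridBound w d) D ×ˢ Finset.range (lineBound c n w d + 1)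

/-- No candidate has a larger potential. -/
def LocalMax (A : Fin c → Fin n → Fin (d + 1) → Matrix (Fin w) (Fin w) K)
    (σ : Fin c → Equiv.Perm (Fin n)) (g : Fin n → ℤ) : Prop :=
  ∀ y ∈ candidates c n w d, potential A σ (linePoint y.1 y.2.1 y.2.2 g) ≤ potential A σ g

/-- The number of ranks in the definition of the potential. -/
def ranksPerPotential (c n w d : ℕ) : ℕ :=
  ∑ κ ∈ conditions c n w, 2 * (grid (gridBound w d) (κ.2.2.2.1 ∪ κ.2.2.2.2)).card

/-- The number of ranks computed by the local search: the potential of the first point, and in each of at most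
`potentialBound + 1` rounds the potential of all candidates and, for `2 λ + 1` coordinates, of the
`potentialBound * d + 1` possible roundings. -/
def searchCost (c n w d : ℕ) : ℕ :=
  (1 + (potentialBound c n w + 1) * ((candidates c n w d).card +
    (2 * lam w + 1) * (potentialBound c n w * d + 1))) * ranksPerPotential c n w d

/-! ### The test -/

/-- The points which differ from `g` in at most `B` coordinates and have coordinates `0, ..., d` there. -/
def testPoints (d B : ℕ) (g : Fin n → ℤ) : Finset (Fin n → ℤ) :=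
  (Finset.univ.filter fun T : Finset (Fin n) => T.card ≤ B).biUnion fun T =>
    Fintype.piFinset fun v => if v ∈ T then (Finset.range (d + 1)).image (fun j : ℕ => (j : ℤ)) else {g v}

/-! ### Proofs -/

theorem rankAt_eq (A : Fin n → Fin (d + 1) → Matrix (Fin w) (Fin w) K) (σ : Equiv.Perm (Fin n))
    (a b : ℕ) (F : Finset (Fin n)) (𝒮 : Finset (Finset (Fin n))) (x g : Fin n → K) :
    rankAt A σ a b F 𝒮 x g = cornerRank A σ a b F 𝒮 x g := rfl

theorem sum_eq (A : Fin c → Fin n → Fin (d + 1) → Matrix (Fin w) (Fin w) K)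
    (σ : Fin c → Equiv.Perm (Fin n)) (L R : Fin c → Fin w → K) :
    sumOfPrograms A σ L R = sumPoly A σ L R := rfl

theorem mem_grid {M : ℕ} {U : Finset (Fin n)} {x : Fin n → ℕ} :
    x ∈ grid M U ↔ ∀ v, (v ∈ U → x v ≤ M) ∧ (v ∉ U → x v = 0) := by
  unfold grid
  rw [Fintype.mem_piFinset]
  refine forall_congr' fun v => ?_
  by_cases hv : v ∈ U
  · simp [hv]
  · simp [hv]

theorem topRank_eq (M : ℕ) (A : Fin n → Fin (d + 1) → Matrix (Fin w) (Fin w) K)
    (σ : Equiv.Perm (Fin n)) (a b : ℕ) (U F : Finset (Fin n)) (𝒮 : Finset (Finset (Fin n)))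
    (h : ∀ S ∈ 𝒮, S ⊆ U) (g : Fin n → K) :
    topRank M A σ a b U F 𝒮 g = maxRank M A σ a b F 𝒮 g := by
  apply le_antisymm
  · refine Finset.sup_le fun x hx => ?_
    rw [mem_grid] at hx
    rw [rankAt_eq]
    refine le_maxRank M A σ a b F 𝒮 x (fun v => ?_) g
    by_cases hv : v ∈ U ∪ F
    · exact (hx v).1 hv
    · rw [(hx v).2 hv]
      exact Nat.zero_le M
  · refine Finset.sup_le fun x _ => ?_
    have h1 : cornerRank A σ a b F 𝒮 (fun v => ((x v : ℕ) : K)) g =
        rankAt A σ a b F 𝒮 (fun v => ((if v ∈ U ∪ F then (x v : ℕ) else 0 : ℕ) : K)) g := by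
      rw [rankAt_eq]
      refine congrArg (fun s => Module.finrank K (Submodule.span K s)) (Set.image_congr fun S hS => ?_)
      funext α
      unfold corner segVal
      refine val_congr _ _ _ _ fun v _ => ?_
      unfold mix
      by_cases hv : v ∈ S ∪ α.1
      · have h2 : v ∈ U ∪ F := Finset.union_subset_union (h S hS) α.2 hv
        rw [if_pos hv, if_pos hv]
        beta_reduce
        rw [if_pos h2]
      · rw [if_neg hv, if_neg hv]
    rw [h1]
    refine Finset.le_sup (f := fun x : Fin n → ℕ => rankAt A σ a b F 𝒮 (fun v => (x v : K)) g) ?_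
    rw [mem_grid]
    intro v
    refine ⟨fun hv => ?_, fun hv => by rw [if_neg hv]⟩
    rw [if_pos hv]
    exact Nat.lt_succ_iff.1 (x v).2

theorem potential_eq (A : Fin c → Fin n → Fin (d + 1) → Matrix (Fin w) (Fin w) K)
    (σ : Fin c → Equiv.Perm (Fin n)) (z : Fin n → ℤ) :
    potential A σ z =
      Pool.Agent.V8H74.SR.potential (gridBound w d) A σ (2 * lam w + 1) (lam w) fun v => (z v : K) := by
  unfold potential Pool.Agent.V8H74.SR.potential
  refine Finset.sum_congr rfl fun κ _ => ?_
  rw [topRank_eq _ _ _ _ _ _ _ _ fun S hS => Finset.mem_powerset.1 hS,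
    topRank_eq _ _ _ _ _ _ _ _ fun S hS => (Finset.mem_ssubsets.1 hS).1]

theorem bound_eq (c n w : ℕ) : potentialBound c n w = maxPotential c n w (2 * lam w + 1) (lam w) := by
  unfold potentialBound maxPotential
  congr 3
  ring

theorem round_all [CharZero K] (A : Fin c → Fin n → Fin (d + 1) → Matrix (Fin w) (Fin w) K)
    (σ : Fin c → Equiv.Perm (Fin n)) (z : Fin n → ℤ) (v : Fin n) :
    ∃ y : ℕ, y ≤ potentialBound c n w * d ∧
      potential A σ z ≤ potential A σ (Function.update z v (y : ℤ)) := by
  obtain ⟨y, hy, h⟩ := round (gridBound w d) A σ (2 * lam w + 1) (lam w) (fun v => (z v : K)) v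
  refine ⟨y, by rw [bound_eq]; exact hy, ?_⟩
  rw [potential_eq, potential_eq]
  refine h.trans (le_of_eq ?_)
  congr 1
  funext u
  by_cases hu : u = v
  · subst hu; simp
  · simp [hu]

theorem test [CharZero K] (A : Fin c → Fin n → Fin (d + 1) → Matrix (Fin w) (Fin w) K)
    (σ : Fin c → Equiv.Perm (Fin n)) (g : Fin n → ℤ) (hg : LocalMax A σ g) (L R : Fin c → Fin w → K)
    (h : ∀ z ∈ testPoints d ((c - 1) * (6 * lam w + 1) + 2 * lam w) g,
      MvPolynomial.eval (fun v => (z v : K)) (sumOfPrograms A σ L R) = 0) :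
    sumOfPrograms A σ L R = 0 := by
  classical
  have hgood := line_good (gridBound w d) (lineBound c n w d) A σ (2 * lam w + 1) (lam w)
    (lt_two_pow_log w) le_rfl (by
      unfold lineBound gridSize
      rw [bound_eq]) (fun v => (g v : K)) (by
      intro D hD x hx t ht
      have h1 := hg ⟨D, fun v => if v ∈ D then x v else 0, t⟩ (by
        unfold candidates
        simp only [Finset.mem_sigma, Finset.mem_filter, Finset.mem_univ, true_and, Finset.mem_product,
          Finset.mem_range, mem_grid]
        refine ⟨hD, fun v => ⟨fun hv => ?_, fun hv => if_neg hv⟩, Nat.lt_succ_of_le ht⟩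
        rw [if_pos hv]
        exact hx v)
      rw [potential_eq, potential_eq] at h1
      refine le_trans (le_of_eq ?_) h1
      congr 1
      funext v
      unfold mix linePoint
      by_cases hv : v ∈ D
      · simp [hv]
      · simp [hv])
  rw [sum_eq, sumPoly_eq_zero_iff]
  by_contra hne
  push Not at hne
  obtain ⟨T, hT, x, hx⟩ := support (gridBound w d) A σ (2 * lam w + 1) (lam w) (by omega) le_rfl
    (fun v => (g v : K)) hgood L R hne
  refine hx ?_
  have h1 := h (fun v => if v ∈ T then ((x v : ℕ) : ℤ) else g v) (by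
    unfold testPoints
    rw [Finset.mem_biUnion]
    refine ⟨T, by
      rw [Finset.mem_filter]
      exact ⟨Finset.mem_univ T, hT.trans (support_bound c (lam w))⟩, ?_⟩
    rw [Fintype.mem_piFinset]
    intro v
    by_cases hv : v ∈ T
    · rw [if_pos hv, if_pos hv]
      exact Finset.mem_image_of_mem (fun j : ℕ => (j : ℤ)) (Finset.mem_range.2 (x v).2)
    · rw [if_neg hv, if_neg hv, Finset.mem_singleton])
  rw [sum_eq, eval_sumPoly] at h1
  rw [← h1]
  congr 1
  funext v
  unfold mix
  by_cases hv : v ∈ T
  · simp [hv]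
  · simp [hv]

theorem exists_localMax [CharZero K] (A : Fin c → Fin n → Fin (d + 1) → Matrix (Fin w) (Fin w) K)
    (σ : Fin c → Equiv.Perm (Fin n)) (hle : ∀ z, potential A σ z ≤ potentialBound c n w) :
    ∃ g : Fin n → ℤ, (∀ v, 0 ≤ g v ∧ g v ≤ potentialBound c n w * d) ∧ LocalMax A σ g := by
  classical
  have hbdd : BddAbove (Set.range (potential A σ)) := ⟨_, by rintro _ ⟨z, rfl⟩; exact hle z⟩
  obtain ⟨z, hz⟩ := Nat.sSup_mem (Set.range_nonempty (potential A σ)) hbdd
  have hmax : ∀ z', potential A σ z' ≤ potential A σ z := fun z' => by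
    rw [hz]
    exact le_csSup hbdd ⟨z', rfl⟩
  have hround : ∀ s : Finset (Fin n), ∃ g : Fin n → ℤ, potential A σ z ≤ potential A σ g ∧
      ∀ v ∈ s, 0 ≤ g v ∧ g v ≤ potentialBound c n w * d := by
    intro s
    induction s using Finset.induction_on with
    | empty => exact ⟨z, le_rfl, fun v hv => absurd hv (Finset.notMem_empty v)⟩
    | insert u s hu ih =>
      obtain ⟨g, hg, hg'⟩ := ih
      obtain ⟨y, hy, hy'⟩ := round_all A σ g u
      refine ⟨Function.update g u y, hg.trans hy', fun v hv => ?_⟩
      by_cases hvu : v = u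
      · subst hvu
        rw [Function.update_self]
        exact ⟨Int.natCast_nonneg _, by exact_mod_cast hy⟩
      · rw [Function.update_of_ne hvu]
        exact hg' v ((Finset.mem_insert.1 hv).resolve_left hvu)
  obtain ⟨g, hg, hg'⟩ := hround Finset.univ
  exact ⟨g, fun v => hg' v (Finset.mem_univ v), fun y _ => (hmax _).trans hg⟩

theorem card_grid (M : ℕ) (U : Finset (Fin n)) : (grid M U).card = (M + 1) ^ U.card := by
  unfold grid
  rw [Fintype.card_piFinset]
  have h1 : ∀ v, (if v ∈ U then Finset.range (M + 1) else {0} : Finset ℕ).card = if v ∈ U then M + 1 else 1 := by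
    intro v
    split_ifs <;> simp
  simp only [h1]
  rw [Finset.prod_ite_mem, Finset.univ_inter, Finset.prod_const]

theorem card_small_pow (n B m : ℕ) :
    ∑ T ∈ (Finset.univ : Finset (Finset (Fin n))).filter (fun T => T.card ≤ B), (m + 1) ^ T.card ≤
      (n + 1) ^ B * (m + 1) ^ B := by
  refine (Finset.sum_le_card_nsmul _ _ ((m + 1) ^ B) fun T hT => ?_).trans ?_
  · exact Nat.pow_le_pow_right (Nat.succ_pos m) (Finset.mem_filter.1 hT).2
  · rw [smul_eq_mul]
    exact Nat.mul_le_mul_right _ (card_small n B)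

theorem card_testPoints (d B : ℕ) (g : Fin n → ℤ) : (testPoints d B g).card ≤ ((n + 1) * (d + 1)) ^ B := by
  unfold testPoints
  refine Finset.card_biUnion_le.trans ?_
  rw [mul_pow]
  refine le_trans (le_of_eq ?_) (card_small_pow n B d)
  refine Finset.sum_congr rfl fun T _ => ?_
  rw [Fintype.card_piFinset]
  have h1 : ∀ v, (if v ∈ T then (Finset.range (d + 1)).image (fun j : ℕ => (j : ℤ)) else {g v} : Finset ℤ).card =
      if v ∈ T then d + 1 else 1 := by
    intro v
    split_ifs
    · rw [Finset.card_image_of_injective _ Nat.cast_injective, Finset.card_range]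
    · simp
  simp only [h1]
  rw [Finset.prod_ite_mem, Finset.univ_inter, Finset.prod_const]

theorem card_candidates (c n w d : ℕ) : (candidates c n w d).card ≤
    (n + 1) ^ (2 * lam w + 1) * (gridBound w d + 1) ^ (2 * lam w + 1) * (lineBound c n w d + 1) := by
  unfold candidates
  rw [Finset.card_sigma]
  simp only [Finset.card_product, Finset.card_range, card_grid]
  rw [← Finset.sum_mul]
  exact Nat.mul_le_mul_right _ (card_small_pow n _ _)

theorem ranks_le (c n w d : ℕ) : ranksPerPotential c n w d ≤
    2 * (c * (n + 1) ^ (2 + (2 * lam w + 1) + lam w)) * (gridBound w d + 1) ^ (2 * lam w + 1 + lam w) := by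
  unfold ranksPerPotential
  refine (Finset.sum_le_card_nsmul _ _ (2 * (gridBound w d + 1) ^ (2 * lam w + 1 + lam w))
    fun κ hκ => ?_).trans ?_
  · simp only [conditions, Finset.mem_filter, Finset.mem_univ, true_and] at hκ
    rw [card_grid]
    refine Nat.mul_le_mul_left _ (Nat.pow_le_pow_right (Nat.succ_pos _) ?_)
    exact (Finset.card_union_le _ _).trans (add_le_add hκ.1.le hκ.2.1)
  · rw [smul_eq_mul]
    calc (conditions c n w).card * (2 * (gridBound w d + 1) ^ (2 * lam w + 1 + lam w))
        ≤ (c * (n + 1) ^ (2 + (2 * lam w + 1) + lam w)) *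
          (2 * (gridBound w d + 1) ^ (2 * lam w + 1 + lam w)) :=
          Nat.mul_le_mul_right _ (card_conds c n (2 * lam w + 1) (lam w))
      _ = _ := by ring

/-- **Deterministic identity test for sums of read-once oblivious programs.** -/
theorem result {K : Type} [Field K] [CharZero K] (c n w d : ℕ) :
    (∀ (A : Fin c → Fin n → Fin (d + 1) → Matrix (Fin w) (Fin w) K) (σ : Fin c → Equiv.Perm (Fin n)),
      -- the potential is bounded
      (∀ z, potential A σ z ≤ potentialBound c n w) ∧
      -- coordinates can be rounded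
      (∀ (z : Fin n → ℤ) (v : Fin n), ∃ y : ℕ, y ≤ potentialBound c n w * d ∧
        potential A σ z ≤ potential A σ (Function.update z v (y : ℤ))) ∧
      -- there are local maxima with small coordinates
      (∃ g : Fin n → ℤ, (∀ v, 0 ≤ g v ∧ g v ≤ potentialBound c n w * d) ∧ LocalMax A σ g) ∧
      -- from a local maximum all sums of the programs can be tested
      ∀ g : Fin n → ℤ, LocalMax A σ g → ∀ L R : Fin c → Fin w → K,
        (sumOfPrograms A σ L R = 0 ↔
          ∀ z ∈ testPoints d ((c - 1) * (6 * lam w + 1) + 2 * lam w) g,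
            MvPolynomial.eval (fun v => (z v : K)) (sumOfPrograms A σ L R) = 0)) ∧
    -- the number of test points
    (∀ (B : ℕ) (g : Fin n → ℤ), (testPoints d B g).card ≤ ((n + 1) * (d + 1)) ^ B) ∧
    -- the number and the sizes of the ranks computed by the local search
    searchCost c n w d ≤ (2 * (c + 1) * (n + 1) * (w + 1) * (d + 1)) ^ (29 * lam w + 23) ∧
    potentialBound c n w * d + 1 ≤ (2 * (c + 1) * (n + 1) * (w + 1) * (d + 1)) ^ (3 * lam w + 4) ∧
    lineBound c n w d + 1 ≤ (2 * (c + 1) * (n + 1) * (w + 1) * (d + 1)) ^ (3 * lam w + 6) ∧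
    ∀ κ ∈ conditions c n w, κ.2.2.2.1.powerset.card ≤ 2 * (w + 1) ^ 4 ∧
      2 ^ κ.2.2.2.2.card * w ^ 2 ≤ w ^ 4 := by
  have hb := cost_bound2 c n w d (S := (n + 1) ^ (2 * lam w + 1) * (gridBound w d + 1) ^ (2 * lam w + 1))
    (R := ranksPerPotential c n w d) (lam := lam w) (P := potentialBound c n w)
    (N := potentialBound c n w * d) (M := gridBound w d) (T := lineBound c n w d) rfl
    (by rw [bound_eq]; rfl) rfl rfl rfl rfl le_rfl (ranks_le c n w d)
  refine ⟨fun A σ => ?_, fun B g => card_testPoints d B g, ?_, hb.2.1, hb.2.2.1, ?_⟩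
  · have hle : ∀ z, potential A σ z ≤ potentialBound c n w := fun z => by
      rw [potential_eq, bound_eq]
      exact potential_le _ _ _ _ _ _
    exact ⟨hle, fun z v => round_all A σ z v, exists_localMax A σ hle, fun g hg L R =>
      ⟨fun h z _ => by rw [h, map_zero], test A σ g hg L R⟩⟩
  · refine le_trans (Nat.mul_le_mul_right _ ?_) hb.2.2.2
    gcongr
    exact card_candidates c n w d
  · intro κ hκ
    simp only [conditions, Finset.mem_filter, Finset.mem_univ, true_and] at hκ
    have h2 : 2 ^ lam w ≤ (w + 1) ^ 2 := by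
      rcases Nat.eq_zero_or_pos w with rfl | hw
      · simp [lam]
      · exact (Nat.pow_log_le_self 2 (by positivity)).trans (Nat.pow_le_pow_left (Nat.le_succ w) 2)
    constructor
    · rw [Finset.card_powerset, hκ.1]
      calc 2 ^ (2 * lam w + 1) = 2 * (2 ^ lam w * 2 ^ lam w) := by ring
        _ ≤ 2 * ((w + 1) ^ 2 * (w + 1) ^ 2) := by gcongr
        _ = 2 * (w + 1) ^ 4 := by ring
    · exact (two_pow_le hκ.2.1).trans (two_pow_log_le w)

end Pool.Agent.Results.MP_b2b50d_lc.SumsOfReadOncePrograms
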