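import Pool.Agent.V8H51.PIT.GrowProof

/-!
# Identity testing for circuits of small weight

The gates of the circuits are arithmetic formulas, or arbitrary polynomials, in the variables and in
the results of earlier gates, and every gate has a label, a set of variables containing the labels
of its inputs. The weight of a polynomial gate is the sum over its inputs of the number of variables
by which the label grows; the weight of a formula gate is the sum of the sizes of the labels at its
leaves plus the size of its own label.

The first part reduces identity testing, for polynomials of any degree, to few variables: if the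
variables are partitioned into `b` blocks such that for each block the crossing number of the circuit
and the block plus the size of the block is at most `M` (or the block has at most one element), then
the polynomial computed by the circuit is zero if and only if it becomes zero when the polynomials
`generator M h i` in `M + b` new variables are substituted for the variables. By the second part there
is such a partition into `2√(n + W) + 1` intervals with `M = 4(√(n + W) + 1)`, if the weight of the
circuit is at most `W`. The third part is the resulting explicit hitting set.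
-/

set_option autoImplicit false

namespace Pool.Agent.Results.MP_b2b50d_lc.SupportGrowth

open Pool.Agent.V8H51.PIT MvPolynomial

/-- The number `M` of moments used. -/
def moments (n W : ℕ) : ℕ := 4 * (Nat.sqrt (n + W) + 1)

/-- The explicit hitting set. -/
def hittingSet (n W d : ℕ) : Finset (Fin n → ℕ) :=
  points n (moments n W) (2 * Nat.sqrt (n + W)) (d * moments n W)

theorem result (n : ℕ) :
    (∀ (P : Circuit n) (M b : ℕ) (h : Fin n → Fin b), P.Labelled → 2 ≤ M →
      (∀ j, P.crossing (block h j) + (block h j).card ≤ M ∨ (block h j).card ≤ 1) →
      (P.value 0 = 0 ↔ aeval (generator M h) (P.value 0) = 0)) ∧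
    (∀ (P : Circuit n) (W : ℕ), P.weight ≤ W →
      ∃ a : Fin (2 * Nat.sqrt (n + W)) → Fin (n + 1), ∀ j,
        P.crossing (block (interval a) j) + (block (interval a) j).card ≤ moments n W ∨
        (block (interval a) j).card ≤ 1) ∧
    ∀ W d : ℕ,
      (hittingSet n W d).card ≤ (n + 1) ^ (2 * Nat.sqrt (n + W)) *
        (d * moments n W + 1) ^ (moments n W + 2 * Nat.sqrt (n + W) + 1) ∧
      ∀ P : Circuit n, P.Labelled → P.weight ≤ W → (P.value 0).totalDegree ≤ d →
        P.value 0 ≠ 0 → ∃ a ∈ hittingSet n W d, eval (fun i => (a i : ℂ)) (P.value 0) ≠ 0 := by
  have hpart : ∀ (P : Circuit n) (W : ℕ), P.weight ≤ W →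
      ∃ a : Fin (2 * Nat.sqrt (n + W)) → Fin (n + 1), ∀ j,
        P.crossing (block (interval a) j) + (block (interval a) j).card ≤ moments n W ∨
        (block (interval a) j).card ≤ 1 := by
    intro P W hW
    refine P.exists_partition (Nat.succ_pos (Nat.sqrt (n + W))) ?_ hW
    refine Nat.mul_le_mul_left 2 (Nat.lt_succ_iff.1 ?_)
    exact (Nat.div_lt_iff_lt_mul (Nat.succ_pos _)).2 (Nat.lt_succ_sqrt (n + W))
  have hred : ∀ (P : Circuit n) (M b : ℕ) (h : Fin n → Fin b), P.Labelled → 2 ≤ M →
      (∀ j, P.crossing (block h j) + (block h j).card ≤ M ∨ (block h j).card ≤ 1) →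
      P.value 0 ≠ 0 → aeval (generator M h) (P.value 0) ≠ 0 := by
    intro P M b h hP hM hB hf
    exact fam_ne_zero hM _ hf h fun j => (hB j).imp
      (fun hj => circuit_simple _ P hP hj (by omega)) id
  refine ⟨?_, hpart, ?_⟩
  · intro P M b h hP hM hB
    constructor
    · intro h0
      rw [h0, map_zero]
    · intro h0
      by_contra h1
      exact hred P M b h hP hM hB h1 h0
  · intro W d
    refine ⟨card_points_le _ _ _ _, ?_⟩
    intro P hP hW hd hf
    obtain ⟨a, ha⟩ := hpart P W hW
    have hne := hred P (moments n W) _ (interval a) hP (by simp only [moments]; omega) ha hf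
    obtain ⟨X, z, hX, hz, h⟩ := hit_of_ne_zero _ (interval a) hne hd
    exact ⟨point a X z, mem_points_of_hit a X z hX hz, h⟩

end Pool.Agent.Results.MP_b2b50d_lc.SupportGrowth
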